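import Pool.Agent.H5.OR.Targets3
import Pool.Agent.H11.OR.TA
import Pool.Agent.H94.OR.TN

/-!
# (M7): the bijection between the leaves
-/

set_option autoImplicit false

namespace Pool.Agent.H33.ORS

open ORg

theorem of_not_comm {X : Type} {x y : X} (h : x ≠ y) :
    FreeGroup.of x * FreeGroup.of y ≠ FreeGroup.of y * FreeGroup.of x := by
  classical
  intro heq
  have h1 := congrArg (FreeGroup.lift (fun z : X => if z = x then
    (Equiv.swap 0 1 : Equiv.Perm (Fin 3)) else Equiv.swap 1 2)) heq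
  simp only [map_mul, FreeGroup.lift_apply_of, if_true, if_neg h.symm] at h1
  exact absurd h1 (by decide)

theorem no_cyclic {X1 : Type} [Nontrivial X1] (w : FreeGroup X1)
    (h : ∀ y : FreeGroup X1, ∃ k : ℤ, y = w ^ k) : False := by
  obtain ⟨x, y, hxy⟩ := exists_pair_ne X1
  obtain ⟨k, hk⟩ := h (FreeGroup.of x)
  obtain ⟨l, hl⟩ := h (FreeGroup.of y)
  apply of_not_comm hxy
  rw [hk, hl, ← zpow_add, ← zpow_add, add_comm]

/-- an element of the centre which maps the free factor of a leaf into a leaf -/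
theorem back (TA : T_TA) (TN : T_TN) {I : Type} {X Z : I → Type} {P G : Type} [Group P] [Group G]
    {w : ∀ i, FreeGroup (X i)} {a : I → P} {iF : ∀ i, FreeGroup (X i ⊕ Z i) →* G} {iP : P →* G}
    {S : GTree G} {r : S.V} {b : I → S.V} (hS : Sx w a iF iP S r b) (i i2 : I)
    (hnt : Nontrivial (X i)) (u : G) (hu : u ∈ iP.range)
    (h : ∀ y : FreeGroup (X i), u * iF i (fl y) * u⁻¹ ∈ ((iF i2).comp fl).range) :
    i2 = i ∧ ∀ x : G, u * x * u⁻¹ ∈ ((iF i2).comp fl).range → x ∈ ((iF i).comp fl).range := by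
  have k1 : ∀ y : FreeGroup (X i), u * iF i (fl y) * u⁻¹ ∈ (iF i2).range := by
    intro y
    obtain ⟨z, hz⟩ := h y
    exact ⟨fl z, hz⟩
  have k2 : ∀ y : FreeGroup (X i), iF i (fl y) • (u⁻¹ • b i2) = u⁻¹ • b i2 := by
    intro y
    have h7 := (hS.am.stB i2 _).2 (k1 y)
    rw [mul_smul, mul_smul] at h7
    rw [eq_inv_smul_iff]
    exact h7
  have k3 : ∀ y : FreeGroup (X i), iF i (fl y) • b i = b i := fun y =>
    (hS.am.stB i _).2 ⟨fl y, rfl⟩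
  have k4 : u⁻¹ • r = r := (hS.am.stA _).2 (inv_mem hu)
  have k5 : S.T.Adj r (u⁻¹ • b i2) := by
    have h7 := S.adj u⁻¹ r (b i2) (hS.am.adj i2)
    rwa [k4] at h7
  obtain ⟨-, -, -, t4, t5, -, t7, -⟩ := TA G S
  have hinj : Function.Injective (fl : FreeGroup (X i) →* FreeGroup (X i ⊕ Z i)) :=
    FreeGroup.map_injective Sum.inl_injective
  have k6 : u⁻¹ • b i2 = b i := by
    by_contra hne
    have h7 : u⁻¹ • b i2 ∈ S.hs r (b i) := by
      rcases (t4 r (b i) (hS.am.adj i) (u⁻¹ • b i2)).1 with h | h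
      · exact h
      · exact absurd (t7 r (b i) (hS.am.adj i) r (u⁻¹ • b i2) k5
          (t5 r (b i) (hS.am.adj i)).1 h).2 hne
    have h8 : b i ∈ S.hs (b i) r := (t5 (b i) r (hS.am.adj i).symm).1
    have h9 : ∀ y : FreeGroup (X i), iF i (fl y) • r = r := fun y =>
      ((TN G S).2.2 (iF i (fl y)) (b i) (u⁻¹ • b i2) (b i) r (k3 y) (k2 y) (hS.am.adj i).symm h8
        h7).2
    have : Nontrivial (X i) := hnt
    apply no_cyclic (w i)
    intro y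
    obtain ⟨q, hq'⟩ := (hS.am.stA _).1 (h9 y)
    obtain ⟨k, hk, -⟩ := hS.inter i (fl y) q hq'.symm
    refine ⟨k, ?_⟩
    apply hinj
    rw [hk, map_zpow]
  have k7 : i2 = i := hS.am.orb i2 i u⁻¹ k6
  subst k7
  refine ⟨rfl, ?_⟩
  have k8 : u⁻¹ ∈ (iF i2).range := (hS.am.stB i2 _).1 k6
  obtain ⟨x0, hx0⟩ := k8
  obtain ⟨y0, hy0⟩ := inv_mem hu
  obtain ⟨k, hk, -⟩ := hS.inter i2 x0 y0 (hx0.trans hy0.symm)
  have k9 : u⁻¹ = iF i2 (fl (w i2 ^ k)) := by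
    have k10 : (fl (w i2 ^ k) : FreeGroup (X i2 ⊕ Z i2)) = fl (w i2) ^ k := map_zpow _ _ _
    rw [← hx0, hk, k10]
  intro x hx
  obtain ⟨z, hz⟩ := hx
  refine ⟨w i2 ^ k * z * (w i2 ^ k)⁻¹, ?_⟩
  have h1 : (iF i2) (fl z) = u * x * u⁻¹ := hz
  show (iF i2) (fl (w i2 ^ k * z * (w i2 ^ k)⁻¹)) = x
  rw [map_mul, map_mul, map_mul, map_mul, h1, map_inv, map_inv, ← k9]
  group

theorem pf_M7 (M2 : T_M2) (M3 : T_M3) (M5 : T_M5) (M6 : T_M6) : T_M7 := by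
  intro I X Z P G _ _ w a iF iP S r b I' X' Z' P' G' _ _ w' a' iF' iP' S' r' b' hS hS' ⟨φ0⟩
  have TA : T_TA := Pool.Agent.H11.OR.pf_TA
  have TN : T_TN := Pool.Agent.H94.OR.pf_TN TA
  obtain ⟨g, hg⟩ := M3 I X Z P G w a iF iP S r b I' X' Z' P' G' w' a' iF' iP' S' r' b' hS hS' φ0
  obtain ⟨φ, hφ⟩ : ∃ φ : G ≃* G', φ = φ0.trans (MulAut.conj g) := ⟨_, rfl⟩
  have e1 : ∀ x, φ x = g * φ0 x * g⁻¹ := fun x => by rw [hφ]; rfl
  have A2 : ∀ x : G, x ∈ iP.range ↔ φ x ∈ iP'.range := fun x => by rw [e1]; exact hg x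
  have A3 : ∀ x : G', x ∈ iP'.range ↔ φ.symm x ∈ iP.range := by
    intro x
    rw [A2 (φ.symm x), MulEquiv.apply_symm_apply]
  have F : ∀ i : {i // Nontrivial (X i)}, ∃ j : {j // Nontrivial (X' j)}, ∃ p : G',
      p ∈ iP'.range ∧
      ∀ y : FreeGroup (X i), p * φ (iF i (fl y)) * p⁻¹ ∈ ((iF' j).comp fl).range := by
    intro i
    obtain ⟨j, p, hp, hj⟩ := M5 I X Z P G w a iF iP S r b I' X' Z' P' G' w' a' iF' iP' S' r' b' hS
      hS' φ A2 i.1 i.2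
    obtain ⟨h1, h2⟩ := M6 I X Z P G w a iF iP S r b I' X' Z' P' G' w' a' iF' iP' S' r' b' hS hS' φ
      A2 i.1 j i.2 p hp hj
    exact ⟨⟨j, h1⟩, p, hp, h2⟩
  have F' : ∀ j : {j // Nontrivial (X' j)}, ∃ i : {i // Nontrivial (X i)}, ∃ p : G,
      p ∈ iP.range ∧
      ∀ y : FreeGroup (X' j), p * φ.symm (iF' j (fl y)) * p⁻¹ ∈ ((iF i).comp fl).range := by
    intro j
    obtain ⟨i, p, hp, hi⟩ := M5 I' X' Z' P' G' w' a' iF' iP' S' r' b' I X Z P G w a iF iP S r b hS'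
      hS φ.symm A3 j.1 j.2
    obtain ⟨h1, h2⟩ := M6 I' X' Z' P' G' w' a' iF' iP' S' r' b' I X Z P G w a iF iP S r b hS' hS
      φ.symm A3 j.1 i j.2 p hp hi
    exact ⟨⟨i, h1⟩, p, hp, h2⟩
  choose J pJ hpJ hJ using F
  choose K pK hpK hK using F'
  have c1 : ∀ i : {i // Nontrivial (X i)}, ∀ y : FreeGroup (X i),
      (pK (J i) * φ.symm (pJ i)) * iF i (fl y) * (pK (J i) * φ.symm (pJ i))⁻¹ ∈
        ((iF (K (J i))).comp fl).range := by
    intro i y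
    obtain ⟨z, hz⟩ := hJ i y
    have h1 := hK (J i) z
    have h2 : iF' (J i) (fl z) = pJ i * φ (iF i (fl y)) * (pJ i)⁻¹ := hz
    rw [h2, map_mul, map_mul, map_inv, MulEquiv.symm_apply_apply] at h1
    have h3 : pK (J i) * (φ.symm (pJ i) * iF i (fl y) * (φ.symm (pJ i))⁻¹) * (pK (J i))⁻¹ =
        (pK (J i) * φ.symm (pJ i)) * iF i (fl y) * (pK (J i) * φ.symm (pJ i))⁻¹ := by group
    rwa [h3] at h1
  have u1 : ∀ i : {i // Nontrivial (X i)}, pK (J i) * φ.symm (pJ i) ∈ iP.range := fun i =>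
    mul_mem (hpK _) ((A3 _).1 (hpJ i))
  have c2 : ∀ j : {j // Nontrivial (X' j)}, ∀ y : FreeGroup (X' j),
      (pJ (K j) * φ (pK j)) * iF' j (fl y) * (pJ (K j) * φ (pK j))⁻¹ ∈
        ((iF' (J (K j))).comp fl).range := by
    intro j y
    obtain ⟨z, hz⟩ := hK j y
    have h1 := hJ (K j) z
    have h2 : iF (K j) (fl z) = pK j * φ.symm (iF' j (fl y)) * (pK j)⁻¹ := hz
    rw [h2, map_mul, map_mul, map_inv, MulEquiv.apply_symm_apply] at h1
    have h3 : pJ (K j) * (φ (pK j) * iF' j (fl y) * (φ (pK j))⁻¹) * (pJ (K j))⁻¹ =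
        (pJ (K j) * φ (pK j)) * iF' j (fl y) * (pJ (K j) * φ (pK j))⁻¹ := by group
    rwa [h3] at h1
  have u2 : ∀ j : {j // Nontrivial (X' j)}, pJ (K j) * φ (pK j) ∈ iP'.range := fun j =>
    mul_mem (hpJ _) ((A2 _).1 (hpK j))
  have b1 := fun i : {i // Nontrivial (X i)} => back TA TN hS i.1 (K (J i)).1 i.2 _ (u1 i) (c1 i)
  have b2 := fun j : {j // Nontrivial (X' j)} => back TA TN hS' j.1 (J (K j)).1 j.2 _ (u2 j) (c2 j)
  refine ⟨φ, ⟨J, K, fun i => Subtype.ext (b1 i).1, fun j => Subtype.ext (b2 j).1⟩, A2, ?_⟩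
  intro i
  refine ⟨pJ i, hpJ i, fun x => ⟨?_, ?_⟩⟩
  · rintro ⟨y, rfl⟩
    exact hJ i y
  · rintro ⟨z, hz⟩
    have h2 : iF' (J i) (fl z) = pJ i * φ x * (pJ i)⁻¹ := hz
    have h1 := hK (J i) z
    rw [h2, map_mul, map_mul, map_inv, MulEquiv.symm_apply_apply] at h1
    have h3 : pK (J i) * (φ.symm (pJ i) * x * (φ.symm (pJ i))⁻¹) * (pK (J i))⁻¹ =
        (pK (J i) * φ.symm (pJ i)) * x * (pK (J i) * φ.symm (pJ i))⁻¹ := by group
    rw [h3] at h1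
    exact (b1 i).2 x h1

end Pool.Agent.H33.ORS
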